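import Pool.Agent.Lib.helper10.Kit2
import Pool.Agent.Lib.helper10.FPT

namespace Pool.Agent.Results.MP_eb915b_lc.FPT

open Pool.Agent.Cx List

/-- `S` and `T` can be cut into the same blocks, each of length at least 2 -/
def Strips (S T : List ℕ) : Prop :=
  ∃ B C : List (List ℕ), B.flatten = S ∧ C.flatten = T ∧ B.Perm C ∧ ∀ b ∈ B, 2 ≤ b.length

abbrev Inst := List ℕ × List ℕ × ℕ

/-- two orderings of the same set of characters have subsequences with a common strip partition
and length at least `k` -/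
def MSR (z : Inst) : Prop := (z.1.Nodup ∧ z.1.Perm z.2.1) ∧
  ∃ S T, S.Sublist z.1 ∧ T.Sublist z.2.1 ∧ Strips S T ∧ z.2.2 ≤ S.length

lemma pw {G : List ℕ} (h : G.Nodup) : G.Pairwise fun a b => G.idxOf a < G.idxOf b :=
  pairwise_iff_getElem.2 fun i j _ _ e => by rwa [h.idxOf_getElem, h.idxOf_getElem]

lemma sub_of {G L : List ℕ} (h : G.Nodup) (a : L ⊆ G)
    (b : L.Pairwise fun a b => G.idxOf a < G.idxOf b) : L.Sublist G :=
  have : Std.Antisymm fun a b => G.idxOf a < G.idxOf b := ⟨fun _ _ _ _ => by omega⟩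
  sublist_of_subperm_of_pairwise (subperm_of_subset (b.imp fun e c => by simp [c] at e) a) b (pw h)

lemma lt_of {G L : List ℕ} (h : G.Nodup) (s : L.Sublist G) {a b : ℕ} (hb : b ∈ L)
    (e : L.idxOf a < L.idxOf b) : G.idxOf a < G.idxOf b := by
  have := idxOf_lt_length_of_mem hb
  have := pairwise_iff_getElem.1 ((pw h).sublist s) _ _ (by omega) this e
  rwa [getElem_idxOf, getElem_idxOf] at this

lemma small {G H : List ℕ} {k : ℕ} {B C : List (List ℕ)} (h1 : B.flatten.Sublist G)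
    (h2 : C.flatten.Sublist H) (h3 : B.Perm C) (h4 : ∀ b ∈ B, 2 ≤ b.length) (h5 : k ≤ B.flatten.length) :
    ∃ B C : List (List ℕ), B.flatten.Sublist G ∧ C.flatten.Sublist H ∧ B.Perm C ∧
      (∀ b ∈ B, 2 ≤ b.length ∧ b.length ≤ k + 2) ∧ k ≤ B.flatten.length ∧ B.length ≤ k := by
  have a : ∀ B : List (List ℕ), (B.map (take (k + 2))).flatten.Sublist B.flatten ∧
      min (k + 2) B.flatten.length ≤ (B.map (take (k + 2))).flatten.length := fun B => by
    induction B with
    | nil => simp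
    | cons b B ih =>
      simp only [map_cons, flatten_cons, length_append, length_take]
      exact ⟨(take_sublist _ _).append ih.1, by omega⟩
  have b : ∀ (B : List (List ℕ)) k, (∀ b ∈ B, 2 ≤ b.length) →
      min k B.flatten.length ≤ (B.take k).flatten.length := fun B => by
    induction B with
    | nil => simp
    | cons b B ih =>
      rintro (_ | k) h
      · simp
      · have := ih k fun c hc => h c (by simp [hc])
        have := h b (by simp)
        simp only [take_succ_cons, flatten_cons, length_append]; omega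
  have c : ∀ b ∈ B.map (take (k + 2)), 2 ≤ b.length ∧ b.length ≤ k + 2 := by
    simp only [mem_map]
    rintro _ ⟨b, hb, rfl⟩
    have := h4 b hb
    simp only [length_take]; omega
  obtain ⟨C', d, e⟩ := (take_sublist k _).subperm.trans (h3.map (take (k + 2))).subperm
  have := b _ k fun b hb => (c b hb).1
  have := (a B).2
  exact ⟨_, C', ((take_sublist k _).flatten.trans (a B).1).trans h1, (e.flatten.trans (a C).1).trans h2,
    d.symm, fun b hb => c b (mem_of_mem_take hb), by omega, by simp⟩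

def yv (z : Inst) (a : ℕ) : ℕ := z.2.1.idxOf (z.1.getD a 0)

def r1 (z : Inst) (D : List ℕ) (x : ℕ) : Prop := x ∈ D ∨ x < z.1.length ∨
  ∃ b < x % z.1.length, yv z b < yv z (x % z.1.length) ∧ (x / z.1.length - 1) * z.1.length + b ∈ D

instance (z : Inst) (D : List ℕ) (x : ℕ) : Decidable (r1 z D x) := by unfold r1; infer_instance

def c1 (z : Inst) : List ℕ := clo ((z.2.2 + 2) * z.1.length) (fun D x => decide (r1 z D x)) []

def lev (z : Inst) (a : ℕ) : ℕ := (range (z.2.2 + 2)).countP fun t => decide (t * z.1.length + a ∈ c1 z)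

def long (z : Inst) : Prop := ∃ a < z.1.length, (z.2.2 + 1) * z.1.length + a ∈ c1 z

abbrev Gs := List ℕ × List ℕ × List ℕ

def r2 (z : Inst) (g : Gs) (D : List ℕ) (x : ℕ) : Prop :=
  x ∈ D ∨ lev z (x % z.1.length) ≠ g.2.2.getD (x / z.1.length) 0 ∨
  ∃ j ∈ g.1, ¬ ∃ b < z.1.length, ¬ j * z.1.length + b ∈ D ∧
    (¬ g.1.idxOf j < g.1.idxOf (x / z.1.length) ∨ b < x % z.1.length) ∧
    (¬ g.2.1.idxOf (x / z.1.length) < g.2.1.idxOf j ∨ yv z (x % z.1.length) < yv z b)

instance (z : Inst) (g : Gs) (D : List ℕ) (x : ℕ) : Decidable (r2 z g D x) := by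
  unfold r2; infer_instance

def c2 (z : Inst) (g : Gs) : List ℕ :=
  clo (z.2.2 * (z.2.2 + 2) * z.1.length) (fun D x => decide (r2 z g D x)) []

def test (z : Inst) (m : ℕ) : Prop :=
  (z.1.Nodup ∧ z.2.1.Nodup ∧ (¬ ∃ x ∈ z.1, ¬ x ∈ z.2.1) ∧ ¬ ∃ x ∈ z.2.1, ¬ x ∈ z.1) ∧ (long z ∨
  ∃ B ∈ words (words (range (z.2.2 * (z.2.2 + 2))) (z.2.2 + 2) m) z.2.2 m,
  ∃ C ∈ words (words (range (z.2.2 * (z.2.2 + 2))) (z.2.2 + 2) m) z.2.2 m,
  ∃ w ∈ words (range (z.2.2 + 3)) (z.2.2 * (z.2.2 + 2)) m,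
    (¬ ∃ b ∈ B ++ C, B.count b ≠ C.count b) ∧ (¬ ∃ b ∈ B, b.length < 2) ∧ z.2.2 ≤ B.flatten.length ∧
    B.flatten.Nodup ∧ ¬ ∃ i ∈ B.flatten, ¬ ∃ a < z.1.length,
      ¬ i * z.1.length + a ∈ c2 z (B.flatten, C.flatten, w))

lemma pp_test : PP fun p : Inst × ℕ => test p.1 p.2 := by
  have : PT fun p : Inst × ℕ => yv p.1 p.2 := by unfold yv; fun_prop
  have : PT c1 := PT.clo (by fun_prop) (PP.decide (by unfold r1; fun_prop)) (by fun_prop)
  have : PT fun p : Inst × ℕ => lev p.1 p.2 := PT.countP (PP.decide (by fun_prop)) (by fun_prop)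
  have : PT fun p : Inst × Gs => c2 p.1 p.2 :=
    PT.clo (by fun_prop) (PP.decide (by unfold r2; fun_prop)) (by fun_prop)
  unfold test long; fun_prop

lemma dm {n a : ℕ} (t : ℕ) (h : a < n) : (t * n + a) / n = t ∧ (t * n + a) % n = a := by
  rw [mul_comm, Nat.mul_add_div (by omega), Nat.div_eq_of_lt h, Nat.mul_add_mod, Nat.mod_eq_of_lt h]
  simp

lemma lt_mul {n a t k : ℕ} (h : a < n) (e : t < k) : t * n + a < k * n := by nlinarith

section
variable {z : Inst} (h1 : z.1.Nodup) (h2 : z.1.Perm z.2.1)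
include h1 h2

lemma msr_of {B C : List (List ℕ)} (φ : ℕ → ℕ) (p : B.Perm C) (a : ∀ b ∈ B, 2 ≤ b.length)
    (b : z.2.2 ≤ B.flatten.length) (c : ∀ i ∈ B.flatten, φ i < z.1.length)
    (d : B.flatten.Pairwise fun i j => φ i < φ j)
    (e : C.flatten.Pairwise fun i j => yv z (φ i) < yv z (φ j)) : MSR z := by
  have m : ∀ i ∈ B.flatten, z.1.getD (φ i) 0 ∈ z.1 := fun i hi => by
    rw [getD_eq_getElem _ _ (c i hi)]; exact getElem_mem _
  refine ⟨⟨h1, h2⟩, B.flatten.map fun i => z.1.getD (φ i) 0, C.flatten.map fun i => z.1.getD (φ i) 0,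
    sub_of h1 (forall_mem_map.2 m) (pairwise_map.2 (d.imp_of_mem fun x y e => ?_)),
    sub_of (h2.nodup_iff.1 h1) (fun x hx => ?_) (pairwise_map.2 e),
    ⟨_, _, map_flatten.symm, map_flatten.symm, p.map _, by simpa using a⟩, by rwa [length_map]⟩
  · rwa [getD_eq_getElem _ _ (c _ x), getD_eq_getElem _ _ (c _ y), h1.idxOf_getElem, h1.idxOf_getElem]
  · obtain ⟨i, hi, rfl⟩ := mem_map.1 hx
    exact h2.subset (m i (p.flatten.symm.subset hi))

lemma of_long (h : long z) : MSR z := by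
  obtain ⟨a, a1, a2⟩ := h
  have : ∀ x ∈ c1 z, ∃ L : List ℕ, L.length = x / z.1.length ∧
      (x % z.1.length :: L).Pairwise fun u v => v < u ∧ yv z v < yv z u :=
    clo_ind _ (by simp) fun E hE x _ r => by
      rcases of_decide_eq_true r with r | r | ⟨b, b1, b2, b3⟩
      · exact hE x r
      · exact ⟨[], by simp [Nat.div_eq_of_lt r], by simp⟩
      · by_cases c : x / z.1.length = 0
        · exact ⟨[], by simp [c], by simp⟩
        obtain ⟨L, l1, l2⟩ := hE _ b3
        have := dm (x / z.1.length - 1) (b1.trans (Nat.mod_lt _ (by omega)))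
        rw [this.1] at l1
        rw [this.2] at l2
        refine ⟨b :: L, by rw [length_cons, l1, Nat.sub_add_cancel (Nat.pos_of_ne_zero c)],
          pairwise_cons.2 ⟨fun v hv => ?_, l2⟩⟩
        rcases mem_cons.1 hv with rfl | hv
        · exact ⟨b1, b2⟩
        · have := (pairwise_cons.1 l2).1 v hv; omega
  obtain ⟨L, l1, l2⟩ := this _ a2
  rw [(dm _ a1).1] at l1
  rw [(dm _ a1).2] at l2
  have l3 := pairwise_reverse.2 l2
  refine msr_of h1 h2 (B := [(a :: L).reverse]) id (.refl _) (by simp; omega) (by simp; omega) ?_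
    (by simpa using l3.imp And.left) (by simpa using l3.imp And.right)
  have := fun v hv => ((pairwise_cons.1 l2).1 v hv).1.trans a1
  simpa [or_imp, forall_and, a1] using this

omit h1 h2 in
lemma lev_lt (h : ¬ long z) {a b : ℕ} (ha : a < z.1.length) (e : b < a) (f : yv z b < yv z a) :
    lev z b < lev z a := by
  have fx : ∀ t < z.2.2 + 2, r1 z (c1 z) (t * z.1.length + a) → t * z.1.length + a ∈ c1 z :=
    fun t ht r => clo_fix (c := fun D x => decide (r1 z D x)) (fun D i h => decide_eq_true (Or.inl h)) _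
      (lt_mul ha ht) (decide_eq_true r)
  have b1 : (z.2.2 + 1) * z.1.length + b ∉ c1 z := fun c => h ⟨b, by omega, c⟩
  have b2 := fx 0 (by omega) (Or.inr (Or.inl (by omega)))
  unfold lev
  conv_lhs => rw [range_succ]
  conv_rhs => rw [range_succ_eq_map]
  simp only [countP_append, countP_cons, countP_nil, b1, b2, countP_map, decide_true, decide_false]
  refine Nat.lt_succ_of_le (countP_mono_left fun t ht c => decide_eq_true (fx _ (by simpa using ht)
    (Or.inr (Or.inr ?_))))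
  rw [(dm _ ha).1, (dm _ ha).2]
  exact ⟨b, e, f, of_decide_eq_true c⟩

lemma yv_inj {a b : ℕ} (ha : a < z.1.length) (hb : b < z.1.length) (e : yv z a = yv z b) : a = b := by
  rw [yv, yv, getD_eq_getElem _ _ ha, getD_eq_getElem _ _ hb,
    idxOf_inj (h2.subset (getElem_mem _))] at e
  exact (h1.getElem_inj_iff).1 e

lemma of_csp (h : ¬ long z) {B C : List (List ℕ)} {w : List ℕ} (p : B.Perm C)
    (a : ∀ b ∈ B, 2 ≤ b.length) (b : z.2.2 ≤ B.flatten.length) (c : B.flatten.Nodup)
    (d : ∀ i ∈ B.flatten, i < z.2.2 * (z.2.2 + 2))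
    (e : ∀ i ∈ B.flatten, ∃ a < z.1.length, i * z.1.length + a ∉ c2 z (B.flatten, C.flatten, w)) :
    MSR z := by
  classical
  set g : Gs := (B.flatten, C.flatten, w)
  have : ∀ i, ∃ a, i ∈ g.1 → (a < z.1.length ∧ i * z.1.length + a ∉ c2 z g) ∧
      ∀ b < z.1.length, i * z.1.length + b ∉ c2 z g → a ≤ b := fun i => by
    by_cases hi : i ∈ g.1
    · exact ⟨Nat.find (e i hi), fun _ => ⟨Nat.find_spec (e i hi), fun b x y => Nat.find_min' _ ⟨x, y⟩⟩⟩
    · exact ⟨0, fun h => absurd h hi⟩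
  choose φ f using this
  have fx : ∀ i ∈ g.1, ∀ a < z.1.length, i * z.1.length + a ∉ c2 z g → lev z a = w.getD i 0 ∧
      ∀ j ∈ g.1, ∃ b < z.1.length, j * z.1.length + b ∉ c2 z g ∧
        (¬ g.1.idxOf j < g.1.idxOf i ∨ b < a) ∧ (¬ g.2.1.idxOf i < g.2.1.idxOf j ∨ yv z a < yv z b) :=
    fun i hi a ha n => by
    have := mt (fun r => clo_fix (c := fun D x => decide (r2 z g D x))
      (fun D i h => decide_eq_true (Or.inl h)) [] (lt_mul ha (d i hi)) (decide_eq_true r)) n
    rw [r2, (dm _ ha).1, (dm _ ha).2] at this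
    exact ⟨not_not.1 fun c => this (Or.inr (Or.inl c)),
      fun j hj => not_not.1 fun c => this (Or.inr (Or.inr ⟨j, hj, c⟩))⟩
  refine msr_of h1 h2 φ p a b (fun i hi => (f i hi).1.1) ((pw c).imp_of_mem fun {i j} hi hj l => ?_)
    ((pw (p.flatten.nodup_iff.1 c)).imp_of_mem fun {i j} hi hj l => ?_)
  · obtain ⟨b, b1, b2, b3, -⟩ := (fx j hj _ (f j hj).1.1 (f j hj).1.2).2 i hi
    exact ((f i hi).2 b b1 b2).trans_lt (b3.resolve_left (not_not.2 l))
  · replace hi := p.flatten.symm.subset hi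
    replace hj := p.flatten.symm.subset hj
    obtain ⟨b, b1, b2, -, b3⟩ := (fx i hi _ (f i hi).1.1 (f i hi).1.2).2 j hj
    refine (b3.resolve_left (not_not.2 l)).trans_le (not_lt.1 fun c => ?_)
    have := (f j hj).2 b b1 b2
    have := lev_lt h b1 (this.lt_of_ne fun e => by simp [e] at c) c
    have := (fx j hj _ (f j hj).1.1 (f j hj).1.2).1
    have := (fx j hj _ b1 b2).1
    omega

end

theorem result : InFPT MSR fun z => z.2.2 := by
  classical
  refine inFPT_of_pad (j := fun z => (z.2.2 + 4) ^ 4) (h := fun k => (k + 4) ^ 4)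
    (F := fun p => decide (test p.1 p.2)) (PP.decide pp_test) (by fun_prop)
    (prim_pow.comp (Primrec.nat_add.comp .id (.const 4)) (.const 4)).to_comp (fun _ => le_rfl) fun z => ?_
  rw [decide_eq_true_eq]
  have v : (z.1.Nodup ∧ z.1.Perm z.2.1) ↔
      (z.1.Nodup ∧ z.2.1.Nodup ∧ (¬ ∃ x ∈ z.1, ¬ x ∈ z.2.1) ∧ ¬ ∃ x ∈ z.2.1, ¬ x ∈ z.1) :=
    and_congr_right fun h => ⟨fun p => ⟨p.nodup_iff.1 h, by simp [p.mem_iff], by simp [p.mem_iff]⟩,
      fun ⟨a, b, c⟩ => (perm_ext_iff_of_nodup h a).2 fun x => by push Not at b c; exact ⟨b x, c x⟩⟩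
  constructor
  · rintro ⟨⟨h1, h2⟩, _, _, s1, s2, ⟨B, C, rfl, rfl, s3, s4⟩, s5⟩
    obtain ⟨B, C, s1, s2, s3, s4, s5, s6⟩ := small s1 s2 s3 s4 s5
    obtain ⟨G, H, k⟩ := z
    simp only at *
    have n := h1.sublist s1
    have l : B.flatten.length ≤ k * (k + 2) := by
      rw [length_flatten]
      refine (sum_le_card_nsmul _ (k + 2) (by simpa using fun b hb => (s4 b hb).2)).trans ?_
      simpa using s6
    have t : ∀ a b c : ℕ, a * b ≤ c → (a + 1) ^ b ≤ 2 ^ c := fun a b c h =>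
      (Nat.pow_le_pow_left Nat.lt_two_pow_self _).trans
        (by rw [← pow_mul]; exact Nat.pow_le_pow_right (by simp) h)
    have w1 := mem_words (l := range (k * (k + 2))) (k := k + 2) (m := 2 ^ (k + 4) ^ 4)
      (t _ _ _ (by simp; ring_nf; omega))
    have w2 := mem_words (l := words (range (k * (k + 2))) (k + 2) (2 ^ (k + 4) ^ 4)) (k := k)
      (m := 2 ^ (k + 4) ^ 4) (by
        refine (Nat.pow_le_pow_left (m := 2 ^ (k * (k + 2) * (k + 2) + 1)) ?_ _).trans ?_
        · have := w1.1.trans (t _ _ _ le_rfl)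
          have := Nat.one_le_two_pow (n := k * (k + 2) * (k + 2))
          simp only [length_range, pow_succ] at *; omega
        · rw [← pow_mul]; exact Nat.pow_le_pow_right (by simp) (by ring_nf; omega))
    have w3 := mem_words (l := range (k + 3)) (k := k * (k + 2)) (m := 2 ^ (k + 4) ^ 4)
      (t _ _ _ (by simp; ring_nf; omega))
    have m : ∀ C : List (List ℕ), B.Perm C → C.map (map B.flatten.idxOf) ∈
        words (words (range (k * (k + 2))) (k + 2) (2 ^ (k + 4) ^ 4)) k (2 ^ (k + 4) ^ 4) := fun C p => by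
      refine w2.2 _ (by simpa [← p.length_eq]) ?_
      simp only [mem_map]
      rintro _ ⟨b, hb, rfl⟩
      refine w1.2 _ (by simpa using (s4 b (p.symm.subset hb)).2) ?_
      simp only [mem_map, mem_range]
      rintro _ ⟨x, hx, rfl⟩
      exact (idxOf_lt_length_of_mem (mem_flatten_of_mem (p.symm.subset hb) hx)).trans_le l
    have ij : ∀ x ∈ B.flatten, ∀ y ∈ B.flatten, B.flatten.idxOf x = B.flatten.idxOf y → x = y :=
      fun x hx y _ => (idxOf_inj hx).1
    have ix : ∀ L : List ℕ, L ⊆ B.flatten → ∀ x ∈ B.flatten,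
        (L.map B.flatten.idxOf).idxOf (B.flatten.idxOf x) = L.idxOf x := fun L s x hx => by
      induction L with
      | nil => simp
      | cons y L ih =>
        rw [cons_subset] at s
        simp only [map_cons, idxOf_cons, ih s.2, Bool.cond_eq_ite, beq_iff_eq, idxOf_inj s.1]
    refine ⟨v.1 ⟨h1, h2⟩, Or.inr ⟨_, m B (.refl _), _, m C s3,
      B.flatten.map fun x => lev (G, H, k) (G.idxOf x), w3.2 _ (by rwa [length_map]) ?_,
      fun ⟨b, _, c⟩ => c ((s3.map _).count_eq b), by simpa using fun b hb => Nat.lt_of_succ_le (s4 b hb).1,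
      by rwa [← map_flatten, length_map], by rw [← map_flatten]; exact n.map_on ij, ?_⟩⟩
    · simp only [mem_map, mem_range]
      rintro _ ⟨x, -, rfl⟩
      exact Nat.lt_succ_of_le (countP_le_length.trans (by simp))
    rw [← map_flatten, ← map_flatten]
    have q : ∀ x ∈ B.flatten, G.idxOf x < G.length := fun x hx => idxOf_lt_length_of_mem (s1.subset hx)
    have y : ∀ x ∈ B.flatten, yv (G, H, k) (G.idxOf x) = H.idxOf x := fun x hx => by
      simp only [yv, getD_eq_getElem _ _ (q x hx), getElem_idxOf]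
    have : ∀ i ∈ c2 (G, H, k) (B.flatten.map B.flatten.idxOf, C.flatten.map B.flatten.idxOf,
        B.flatten.map fun x => lev (G, H, k) (G.idxOf x)),
        ∀ x ∈ B.flatten, i ≠ B.flatten.idxOf x * G.length + G.idxOf x :=
      clo_ind _ (by simp) fun E hE i _ r x hx e => by
        subst e
        rw [decide_eq_true_eq, r2, (dm _ (q x hx)).1, (dm _ (q x hx)).2] at r
        rcases r with r | r | ⟨_, r1, r⟩
        · exact hE _ r x hx rfl
        · exact r (by simp [getD_eq_getElem?_getD, getElem?_idxOf hx, -map_flatten])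
        · obtain ⟨u, hu, rfl⟩ := mem_map.1 r1
          refine r ⟨_, q u hu, fun c => hE _ c u hu rfl, ?_⟩
          simp only [ix _ (Subset.refl _) _ hx, ix _ (Subset.refl _) _ hu, ix _ s3.flatten.symm.subset _ hx,
            ix _ s3.flatten.symm.subset _ hu, y x hx, y u hu, ← imp_iff_not_or]
          exact ⟨lt_of h1 s1 hx, lt_of (h2.nodup_iff.1 h1) s2 (s3.flatten.subset hu)⟩
    rintro ⟨_, hi, c⟩
    obtain ⟨x, hx, rfl⟩ := mem_map.1 hi
    exact c ⟨_, q x hx, fun d => this _ d x hx rfl⟩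
  · rintro ⟨h, r⟩
    obtain ⟨h1, h2⟩ := v.2 h
    by_cases l : long z
    · exact of_long h1 h2 l
    obtain ⟨B, b1, C, -, w, -, a1, a2, a3, a4, a5⟩ := r.resolve_left l
    push Not at a1 a2 a5
    refine of_csp h1 h2 l (perm_iff_count.2 fun b => by_contra fun c => c (a1 b (by_contra fun d => ?_)))
      a2 a3 a4 (fun i hi => ?_) a5
    · rw [mem_append, not_or] at d
      exact c (by rw [count_eq_zero_of_not_mem d.1, count_eq_zero_of_not_mem d.2])
    · obtain ⟨b, hb, hi⟩ := mem_flatten.1 hi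
      exact mem_range.1 ((words_len _ _ _ b ((words_len _ _ _ B b1).2 b hb)).2 i hi)

end Pool.Agent.Results.MP_eb915b_lc.FPT
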